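import Pool.Agent.H82.RP.TA

/-!
# Board rpw_modules, row BZQ: choice of the truncation, with a bound
-/

set_option autoImplicit false

open Finset Real
open scoped Nat

namespace Pool.Agent.H96.RPW

open Pool.Agent.H82.RP

theorem pf_BZQ : T_BZQ := by
  intro L v hL hv
  refine ⟨2 * L + |Real.log v| + 2, by positivity, fun η hη hη1 => ?_⟩
  have hlog : 0 ≤ Real.log (1 / η) :=
    Real.log_nonneg (by rw [le_div_iff₀ hη]; linarith)
  have habs : 0 ≤ |Real.log v| := abs_nonneg _
  obtain ⟨x, hx⟩ : ∃ x : ℝ, x = 2 * L + |Real.log v| + Real.log (1 / η) := ⟨_, rfl⟩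
  have hx0 : 0 ≤ x := by rw [hx]; positivity
  refine ⟨⌈x⌉₊, ?_, fun t => ?_⟩
  · have h1 : (⌈x⌉₊ : ℝ) ≤ x + 1 := (Nat.ceil_lt_add_one hx0).le
    nlinarith [mul_nonneg hlog (add_nonneg (add_nonneg (mul_nonneg zero_le_two hL) habs)
      zero_le_one)]
  · set b := ⌈x⌉₊ with hb
    have hbx : x ≤ (b : ℝ) := Nat.le_ceil x
    have hterm : ∀ m : ℕ, L ^ m / (m ! * v) ≤ Real.exp (2 * L) / v * (1 / 2) ^ m := by
      intro m
      have h1 := Real.pow_div_factorial_le_exp (2 * L) (by positivity) m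
      have h2 : L ^ m / (m ! * v) = (2 * L) ^ m / (m ! : ℝ) / v * (1 / 2) ^ m := by
        rw [mul_pow, one_div, inv_pow]
        field_simp
      rw [h2]
      apply mul_le_mul_of_nonneg_right _ (by positivity)
      exact div_le_div_of_nonneg_right h1 hv.le
    have hgeo : ∀ s : ℕ, ∑ j ∈ range s, (1 / 2 : ℝ) ^ (2 * (b + j) + 1) ≤ (1 / 4) ^ b := by
      intro s
      have h1 : ∀ j : ℕ, (1 / 2 : ℝ) ^ (2 * (b + j) + 1) = (1 / 4) ^ b * ((1 / 4) ^ j * (1 / 2)) := by
        intro j
        rw [pow_succ, pow_mul, pow_add]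
        norm_num
        ring
      rw [Finset.sum_congr rfl fun j _ => h1 j, ← Finset.mul_sum]
      have h2 : ∑ j ∈ range s, ((1 / 4 : ℝ) ^ j * (1 / 2)) ≤ 1 := by
        rw [← Finset.sum_mul, geom_sum_eq (by norm_num)]
        have h3 : (0 : ℝ) ≤ (1 / 4) ^ s := by positivity
        have h4 : ((1 / 4 : ℝ) ^ s - 1) / (1 / 4 - 1) * (1 / 2) = (1 - (1 / 4) ^ s) * (2 / 3) := by
          ring
        rw [h4]
        linarith
      calc (1 / 4 : ℝ) ^ b * ∑ j ∈ range s, ((1 / 4 : ℝ) ^ j * (1 / 2))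
          ≤ (1 / 4 : ℝ) ^ b * 1 := mul_le_mul_of_nonneg_left h2 (by positivity)
        _ = (1 / 4) ^ b := mul_one _
    have h4 : (1 / 4 : ℝ) ^ b ≤ Real.exp (-(b : ℝ)) := by
      have h5 : (1 / 4 : ℝ) ≤ Real.exp (-1) := by
        rw [Real.exp_neg, one_div]
        apply inv_anti₀ (Real.exp_pos 1)
        linarith [Real.exp_one_lt_three]
      have h6 : Real.exp (-(b : ℝ)) = Real.exp (-1) ^ b := by
        rw [← Real.exp_nat_mul]
        congr 1
        ring
      rw [h6]
      exact pow_le_pow_left₀ (by norm_num) h5 b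
    have h7 : Real.exp (-(b : ℝ)) ≤ Real.exp (-(2 * L)) * v * η := by
      have h8 : Real.exp (-|Real.log v|) ≤ v := by
        calc Real.exp (-|Real.log v|) ≤ Real.exp (Real.log v) :=
              Real.exp_le_exp.2 (neg_abs_le _)
          _ = v := Real.exp_log hv
      have h9 : Real.exp (-Real.log (1 / η)) = η := by
        rw [one_div, Real.log_inv, neg_neg, Real.exp_log hη]
      calc Real.exp (-(b : ℝ)) ≤ Real.exp (-x) := Real.exp_le_exp.2 (by linarith)
        _ = Real.exp (-(2 * L)) * Real.exp (-|Real.log v|) * Real.exp (-Real.log (1 / η)) := by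
            rw [← Real.exp_add, ← Real.exp_add]
            congr 1
            rw [hx]
            ring
        _ = Real.exp (-(2 * L)) * Real.exp (-|Real.log v|) * η := by rw [h9]
        _ ≤ Real.exp (-(2 * L)) * v * η := by
            apply mul_le_mul_of_nonneg_right _ hη.le
            exact mul_le_mul_of_nonneg_left h8 (Real.exp_pos _).le
    calc ∑ j ∈ range t, L ^ (2 * (b + j) + 1) / ((2 * (b + j) + 1)! * v)
        ≤ ∑ j ∈ range t, Real.exp (2 * L) / v * (1 / 2) ^ (2 * (b + j) + 1) :=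
          Finset.sum_le_sum fun j _ => hterm _
      _ = Real.exp (2 * L) / v * ∑ j ∈ range t, (1 / 2) ^ (2 * (b + j) + 1) := by
          rw [Finset.mul_sum]
      _ ≤ Real.exp (2 * L) / v * (Real.exp (-(2 * L)) * v * η) := by
          apply mul_le_mul_of_nonneg_left _ (by positivity)
          exact (hgeo t).trans (h4.trans h7)
      _ = η := by
          rw [Real.exp_neg]
          field_simp

end Pool.Agent.H96.RPW
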