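import Pool.Agent.H82.RP.TC

/-!
# Board rpw_modules, row VRI: the density with a new point
-/

set_option autoImplicit false

open Finset Real
open scoped Nat

namespace Pool.Agent.H96.RPW.VRI

open Pool.Agent.H82.RP
open Pool.Agent.H31.MP (Pz)

theorem card_one (p e : ℕ) : ((range p).filter fun a => p ∣ a + e).card ≤ 1 := by
  rw [Finset.card_le_one]
  intro a ha b hb
  rw [Finset.mem_filter, Finset.mem_range] at ha hb
  have h3 : a + e ≡ b + e [MOD p] := by
    rw [Nat.ModEq, Nat.mod_eq_zero_of_dvd ha.2, Nat.mod_eq_zero_of_dvd hb.2]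
  have h4 : a ≡ b [MOD p] := Nat.ModEq.add_right_cancel' e h3
  rwa [Nat.ModEq, Nat.mod_eq_of_lt ha.1, Nat.mod_eq_of_lt hb.1] at h4

theorem nS_insert_le (S : Finset ℕ) (e p : ℕ) : nS (insert e S) p ≤ nS S p + 1 := by
  classical
  unfold nS
  calc ((range p).filter fun a => ∃ s ∈ insert e S, p ∣ a + s).card
      ≤ (((range p).filter fun a => ∃ s ∈ S, p ∣ a + s) ∪
          ((range p).filter fun a => p ∣ a + e)).card := by
        apply Finset.card_le_card
        intro a ha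
        rw [Finset.mem_filter] at ha
        obtain ⟨h1, s, hs, h2⟩ := ha
        rw [Finset.mem_union, Finset.mem_filter, Finset.mem_filter]
        rcases Finset.mem_insert.1 hs with rfl | hs
        · exact Or.inr ⟨h1, h2⟩
        · exact Or.inl ⟨h1, s, hs, h2⟩
    _ ≤ ((range p).filter fun a => ∃ s ∈ S, p ∣ a + s).card +
          ((range p).filter fun a => p ∣ a + e).card := Finset.card_union_le _ _
    _ ≤ ((range p).filter fun a => ∃ s ∈ S, p ∣ a + s).card + 1 :=
        Nat.add_le_add_left (card_one p e) _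

theorem nS_le (S : Finset ℕ) (p : ℕ) : nS S p ≤ S.card := by
  classical
  induction S using Finset.induction_on with
  | empty => simp [nS]
  | insert e S he ih =>
    rw [Finset.card_insert_of_notMem he]
    exact (nS_insert_le S e p).trans (Nat.add_le_add_right ih 1)

theorem nS_insert_ge (S : Finset ℕ) (e p : ℕ) : nS S p ≤ nS (insert e S) p := by
  classical
  unfold nS
  refine Finset.card_le_card ?_
  intro a ha
  rw [Finset.mem_filter] at ha ⊢
  obtain ⟨h1, s, hs, h2⟩ := ha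
  exact ⟨h1, s, Finset.mem_insert_of_mem hs, h2⟩

theorem exists_res {p : ℕ} (hp : 0 < p) (e : ℕ) : ∃ a, a < p ∧ p ∣ a + e := by
  have : NeZero p := ⟨hp.ne'⟩
  refine ⟨(-(e : ZMod p)).val, ZMod.val_lt _, ?_⟩
  rw [← ZMod.natCast_eq_zero_iff]
  push_cast
  rw [ZMod.natCast_zmod_val]
  ring

theorem nS_insert_new (S : Finset ℕ) (e p : ℕ) (hp : 0 < p)
    (hne : ∀ s ∈ S, ¬ (p : ℤ) ∣ (e : ℤ) - s) : nS S p + 1 ≤ nS (insert e S) p := by
  classical
  obtain ⟨a₀, ha₀, hd₀⟩ := exists_res hp e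
  unfold nS
  have hnot : a₀ ∉ (range p).filter fun a => ∃ s ∈ S, p ∣ a + s := by
    rw [Finset.mem_filter]
    rintro ⟨_, s, hs, hi⟩
    refine hne s hs ?_
    have h1 : (p : ℤ) ∣ ((a₀ + e : ℕ) : ℤ) := Int.natCast_dvd_natCast.2 hd₀
    have h2 : (p : ℤ) ∣ ((a₀ + s : ℕ) : ℤ) := Int.natCast_dvd_natCast.2 hi
    have h3 := Int.dvd_sub h1 h2
    push_cast at h3
    have h4 : ((a₀ : ℤ) + e) - (a₀ + s) = (e : ℤ) - s := by ring
    rwa [h4] at h3
  rw [← Finset.card_insert_of_notMem hnot]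
  refine Finset.card_le_card ?_
  intro a ha
  rw [Finset.mem_insert, Finset.mem_filter] at ha
  rw [Finset.mem_filter]
  rcases ha with rfl | ⟨h1, s, hs, h2⟩
  · exact ⟨Finset.mem_range.2 ha₀, e, Finset.mem_insert_self e S, hd₀⟩
  · exact ⟨h1, s, Finset.mem_insert_of_mem hs, h2⟩

theorem prod_le_of_subset {s t : Finset ℕ} {f : ℕ → ℝ} (hst : s ⊆ t) (hf : ∀ i ∈ t, 1 ≤ f i) :
    ∏ i ∈ s, f i ≤ ∏ i ∈ t, f i := by
  rw [← Finset.prod_sdiff hst]
  have h1 : 1 ≤ ∏ i ∈ t \ s, f i := by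
    have : ∏ i ∈ t \ s, (1 : ℝ) ≤ ∏ i ∈ t \ s, f i :=
      Finset.prod_le_prod (fun _ _ => zero_le_one) fun i hi => hf i (Finset.mem_sdiff.1 hi).1
    simpa using this
  have h2 : 0 ≤ ∏ i ∈ s, f i :=
    Finset.prod_nonneg fun i hi => zero_le_one.trans (hf i (hst hi))
  nlinarith

theorem one_sub_sum_le {s : Finset ℕ} {x : ℕ → ℝ} (hx : ∀ i ∈ s, 0 ≤ x i ∧ x i ≤ 1) :
    1 - ∑ i ∈ s, x i ≤ ∏ i ∈ s, (1 - x i) := by
  classical
  induction s using Finset.induction_on with
  | empty => simp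
  | insert a s ha ih =>
    rw [Finset.sum_insert ha, Finset.prod_insert ha]
    have h1 := ih fun i hi => hx i (Finset.mem_insert_of_mem hi)
    obtain ⟨h2, h3⟩ := hx a (Finset.mem_insert_self a s)
    have h4 : 0 ≤ ∏ i ∈ s, (1 - x i) := Finset.prod_nonneg fun i hi => by
      linarith [(hx i (Finset.mem_insert_of_mem hi)).2]
    have h5 : ∏ i ∈ s, (1 - x i) ≤ 1 := Finset.prod_le_one
      (fun i hi => by linarith [(hx i (Finset.mem_insert_of_mem hi)).2])
      (fun i hi => by linarith [(hx i (Finset.mem_insert_of_mem hi)).1])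
    nlinarith

/-- Telescoping: the sum of `1 / (p (p - 1))` over `p > y`. -/
theorem tele_sum (y : ℕ) (hy : 1 ≤ y) (N : ℕ) :
    ∑ n ∈ Finset.Ioc y (y + N), 1 / ((n : ℝ) * (n - 1)) = 1 / y - 1 / ((y + N : ℕ) : ℝ) := by
  induction N with
  | zero => simp
  | succ N ih =>
    rw [← add_assoc, Finset.sum_Ioc_succ_top (by omega), ih]
    have h1 : (0 : ℝ) < y := by exact_mod_cast hy
    have h2 : (0 : ℝ) < ((y + N : ℕ) : ℝ) := by positivity
    push_cast at h2 ⊢
    have h3 : (y : ℝ) + N + 1 - 1 = y + N := by ring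
    rw [h3]
    field_simp
    ring

theorem sum_bound (y₀ : ℕ) (hy : 1 ≤ y₀) (z : ℝ) :
    ∑ p ∈ Pz y₀ z, 1 / ((p : ℝ) * (p - 1)) ≤ 1 / y₀ := by
  have h1 : Pz y₀ z ⊆ Finset.Ioc y₀ (y₀ + ⌊z⌋₊) := by
    intro p hp
    unfold Pz at hp
    rw [Finset.mem_filter, Finset.mem_Icc] at hp
    rw [Finset.mem_Ioc]
    exact ⟨hp.2.2, hp.1.2.trans (Nat.le_add_left _ _)⟩
  calc ∑ p ∈ Pz y₀ z, 1 / ((p : ℝ) * (p - 1))
      ≤ ∑ n ∈ Finset.Ioc y₀ (y₀ + ⌊z⌋₊), 1 / ((n : ℝ) * (n - 1)) := by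
        apply Finset.sum_le_sum_of_subset_of_nonneg h1
        intro n hn _
        rw [Finset.mem_Ioc] at hn
        have h2 : (1 : ℝ) ≤ n := by
          have : 1 ≤ n := by omega
          exact_mod_cast this
        have h3 : (0 : ℝ) ≤ (n : ℝ) - 1 := by linarith
        positivity
    _ = 1 / y₀ - 1 / ((y₀ + ⌊z⌋₊ : ℕ) : ℝ) := tele_sum y₀ hy _
    _ ≤ 1 / y₀ := by
        have : (0 : ℝ) ≤ 1 / ((y₀ + ⌊z⌋₊ : ℕ) : ℝ) := by positivity
        linarith

theorem pf_VRI : T_VRI := by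
  classical
  intro K y₀ z S e hK hy he
  have hP : ∀ p ∈ Pz y₀ z, p.Prime ∧ y₀ < p := by
    intro p hp
    unfold Pz at hp
    rw [Finset.mem_filter] at hp
    exact hp.2
  have hy1 : 1 ≤ y₀ := by omega
  have hy0 : (0 : ℝ) < y₀ := by exact_mod_cast hy1
  have hinv : ∀ p : ℕ, 1 < p → 0 < 1 - 1 / (p : ℝ) ∧ 1 ≤ (1 - 1 / (p : ℝ))⁻¹ := by
    intro p hp
    have h5 : (1 : ℝ) < p := by exact_mod_cast hp
    have h6 : 1 / (p : ℝ) < 1 := by
      rw [div_lt_one (by linarith)]
      exact h5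
    have h7 : 0 < 1 / (p : ℝ) := by positivity
    refine ⟨by linarith, ?_⟩
    rw [one_le_inv₀ (by linarith)]
    linarith
  -- facts on the numbers of classes
  have hν : ∀ p, y₀ < p → 2 * ((nS S p : ℝ) + 2) ≤ p ∧ (nS S p : ℝ) ≤ K ∧ (1 : ℝ) < p := by
    intro p hp
    have h1 : nS S p ≤ K := (nS_le S p).trans hK
    refine ⟨?_, by exact_mod_cast h1, ?_⟩
    · have h2 : 2 * (nS S p + 2) ≤ p := by omega
      exact_mod_cast h2
    · have h2 : 1 < p := by omega
      exact_mod_cast h2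
  have hν' : ∀ p, ((nS (insert e S) p : ℕ) : ℝ) ≤ nS S p + 1 ∧
      ((nS S p : ℕ) : ℝ) ≤ nS (insert e S) p := by
    intro p
    exact ⟨by exact_mod_cast nS_insert_le S e p, by exact_mod_cast nS_insert_ge S e p⟩
  have hpos : ∀ p ∈ Pz y₀ z, 0 < 1 - (nS S p : ℝ) / p := by
    intro p hp
    obtain ⟨h1, h2, h3⟩ := hν p (hP p hp).2
    have h4 : (nS S p : ℝ) / p < 1 := by
      rw [div_lt_one (by linarith)]
      have : (0 : ℝ) ≤ nS S p := by positivity
      linarith
    linarith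
  have hpos' : ∀ p ∈ Pz y₀ z, 0 ≤ 1 - (nS (insert e S) p : ℝ) / p := by
    intro p hp
    obtain ⟨h1, h2, h3⟩ := hν p (hP p hp).2
    have h5 := (hν' p).1
    have h4 : (nS (insert e S) p : ℝ) / p ≤ 1 := by
      rw [div_le_one (by linarith)]
      have : (0 : ℝ) ≤ nS S p := by positivity
      linarith
    linarith
  refine ⟨Finset.prod_pos hpos, ?_, ?_⟩
  · -- upper bound
    set M : ℕ := ∏ s ∈ S, ((e : ℤ) - s).natAbs with hM
    have hM0 : M ≠ 0 := by
      rw [hM]
      refine Finset.prod_ne_zero_iff.2 fun s hs => ?_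
      rw [Int.natAbs_ne_zero, sub_ne_zero]
      intro h
      have h' : e = s := by exact_mod_cast h
      exact he (h' ▸ hs)
    set c : ℕ → ℝ := fun p => if p ∣ M then (1 - 1 / (p : ℝ))⁻¹ else 1 with hc
    have hstep : VS y₀ z (insert e S) ≤
        ∏ p ∈ Pz y₀ z, ((1 - (nS S p : ℝ) / p) * (1 - 1 / (p : ℝ)) * c p) := by
      unfold VS
      refine Finset.prod_le_prod hpos' ?_
      intro p hp
      obtain ⟨h1, h2⟩ := hP p hp
      obtain ⟨h3, h4, h5⟩ := hν p h2
      have hi := hinv p h1.one_lt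
      by_cases hd : p ∣ M
      · simp only [hc, if_pos hd]
        rw [mul_assoc, mul_inv_cancel₀ hi.1.ne', mul_one]
        have h6 := (hν' p).2
        have h7 : (nS S p : ℝ) / p ≤ (nS (insert e S) p : ℝ) / p :=
          div_le_div_of_nonneg_right h6 (by linarith)
        linarith
      · simp only [hc, if_neg hd, mul_one]
        have hnd : ∀ s ∈ S, ¬ (p : ℤ) ∣ (e : ℤ) - s := by
          intro s hs hi'
          apply hd
          rw [hM]
          refine dvd_trans ?_ (Finset.dvd_prod_of_mem _ hs)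
          exact Int.natCast_dvd.1 hi'
        have h6 : ((nS S p : ℕ) : ℝ) + 1 ≤ nS (insert e S) p := by
          exact_mod_cast nS_insert_new S e p h1.pos hnd
        have h7 : ((nS S p : ℝ) + 1) / p ≤ (nS (insert e S) p : ℝ) / p :=
          div_le_div_of_nonneg_right h6 (by linarith)
        have h8 : (1 - (nS S p : ℝ) / p) * (1 - 1 / (p : ℝ)) =
            1 - ((nS S p : ℝ) + 1) / p + (nS S p : ℝ) / (p * p) := by
          field_simp
          ring
        have h9 : (0 : ℝ) ≤ (nS S p : ℝ) / (p * p) := by positivity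
        rw [h8]
        linarith
    refine hstep.trans ?_
    rw [Finset.prod_mul_distrib, Finset.prod_mul_distrib]
    have hnn : 0 ≤ (∏ p ∈ Pz y₀ z, (1 - (nS S p : ℝ) / p)) *
        ∏ p ∈ Pz y₀ z, (1 - 1 / (p : ℝ)) :=
      mul_nonneg (Finset.prod_nonneg fun p hp => (hpos p hp).le)
        (Finset.prod_nonneg fun p hp => (hinv p (hP p hp).1.one_lt).1.le)
    refine mul_le_mul_of_nonneg_left ?_ hnn
    have h1 : ∏ p ∈ Pz y₀ z, c p =
        ∏ p ∈ (Pz y₀ z).filter (fun p => p ∣ M), (1 - 1 / (p : ℝ))⁻¹ := by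
      rw [Finset.prod_filter]
    rw [h1]
    unfold RpS
    refine prod_le_of_subset ?_ ?_
    · intro p hp
      rw [Finset.mem_filter] at hp ⊢
      obtain ⟨h2, h3⟩ := hP p hp.1
      exact ⟨Nat.mem_primeFactors.2 ⟨h2, hp.2, hM0⟩, h3⟩
    · intro p hp
      rw [Finset.mem_filter] at hp
      exact (hinv p (by have := hp.2; omega)).2
  · -- lower bound
    have hx : ∀ p ∈ Pz y₀ z, 0 ≤ 2 * K * (1 / ((p : ℝ) * (p - 1))) ∧
        2 * K * (1 / ((p : ℝ) * (p - 1))) ≤ 1 := by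
      intro p hp
      obtain ⟨h1, h2⟩ := hP p hp
      have h3 : (2 * K + 4 : ℝ) ≤ p := by
        have : 2 * K + 4 ≤ p := by omega
        exact_mod_cast this
      have h4 : (0 : ℝ) ≤ K := by positivity
      have h5 : (0 : ℝ) < (p : ℝ) - 1 := by linarith
      have h6 : (0 : ℝ) < p := by linarith
      refine ⟨by positivity, ?_⟩
      rw [mul_one_div, div_le_one (by positivity)]
      nlinarith
    have h1 := one_sub_sum_le hx
    rw [← Finset.mul_sum] at h1
    have h2 := sum_bound y₀ hy1 z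
    have h3 : 1 - 2 * (K : ℝ) / y₀ ≤
        ∏ p ∈ Pz y₀ z, (1 - 2 * K * (1 / ((p : ℝ) * (p - 1)))) := by
      refine le_trans ?_ h1
      have h4 : 2 * (K : ℝ) * ∑ p ∈ Pz y₀ z, 1 / ((p : ℝ) * (p - 1)) ≤ 2 * K * (1 / y₀) :=
        mul_le_mul_of_nonneg_left h2 (by positivity)
      have h5 : 2 * (K : ℝ) / y₀ = 2 * K * (1 / y₀) := by ring
      rw [h5]
      linarith
    have hnn : 0 ≤ VS y₀ z S * ∏ p ∈ Pz y₀ z, (1 - 1 / (p : ℝ)) := by
      unfold VS
      exact mul_nonneg (Finset.prod_nonneg fun p hp => (hpos p hp).le)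
        (Finset.prod_nonneg fun p hp => (hinv p (hP p hp).1.one_lt).1.le)
    refine (mul_le_mul_of_nonneg_right h3 hnn).trans ?_
    unfold VS
    rw [← Finset.prod_mul_distrib, ← Finset.prod_mul_distrib]
    refine Finset.prod_le_prod ?_ ?_
    · intro p hp
      have h4 := (hx p hp).2
      exact mul_nonneg (by linarith) (mul_nonneg (hpos p hp).le (hinv p (hP p hp).1.one_lt).1.le)
    · intro p hp
      obtain ⟨h4, h5⟩ := hP p hp
      obtain ⟨h6, h7, h8⟩ := hν p h5
      have h9 := (hν' p).1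
      have h10 : (0 : ℝ) ≤ nS S p := by positivity
      have hp0 : (0 : ℝ) < p := by linarith
      have hp1 : (0 : ℝ) < (p : ℝ) - 1 := by linarith
      have h11 : 1 - ((nS S p : ℝ) + 1) / p ≤ 1 - (nS (insert e S) p : ℝ) / p := by
        have := div_le_div_of_nonneg_right h9 hp0.le
        linarith
      refine le_trans ?_ h11
      have h12 : (1 - (nS S p : ℝ) / p) * (1 - 1 / (p : ℝ)) =
          ((p : ℝ) - nS S p) * (p - 1) / (p * p) := by
        field_simp
      have h13 : 1 - ((nS S p : ℝ) + 1) / p = ((p : ℝ) - nS S p) * (p - 1) / (p * p) -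
          nS S p / (p * p) := by
        field_simp
        ring
      rw [h12, h13]
      have h14 : (1 - 2 * K * (1 / ((p : ℝ) * (p - 1)))) *
          (((p : ℝ) - nS S p) * (p - 1) / (p * p)) =
          ((p : ℝ) - nS S p) * (p - 1) / (p * p) -
            (2 * K * ((p : ℝ) - nS S p) / p) / (p * p) := by
        field_simp
      rw [h14]
      have h15 : (nS S p : ℝ) ≤ 2 * K * ((p : ℝ) - nS S p) / p := by
        rw [le_div_iff₀ hp0]
        nlinarith
      have h16 := div_le_div_of_nonneg_right h15 (by positivity : (0 : ℝ) ≤ p * p)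
      linarith

end Pool.Agent.H96.RPW.VRI
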